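import Pool.Agent.Q221.Rabin.Undec

set_option autoImplicit false

/-!
# Integrability of finitely presented groups is undecidable

For a finite presentation `⟨X | S⟩` of a group `U` and a word `w` let `A_w` be the group with
generators `x_i, r_i, u, v, y`, relators `S` and relations `u v u = v u v`, `u r_i u = r_i u r_i`,
`r_i ^ 4 = x_i v ^ 4`, `z y z = y z y`, `y ^ 4 = u` with `z = w v ^ 4 w⁻¹ v⁻⁴`. If `w = 1` in `U`
then `A_w` is trivial; otherwise it is a nontrivial perfect group. Let `Γ_w = (A_w * A_w) ≀ C₂`. If
`A_w` is trivial then `Γ_w` is the group of order two, which is integrable. If `A_w` is nontrivial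
then every automorphism of `Q × Q`, `Q = A_w * A_w`, preserves or interchanges the factors (since
`Q` is directly indecomposable with trivial centre), so in any group `H` with `H' = Γ_w` the
commutators normalise each of the two factors of `H'' = Q × Q`, but `t ∈ Γ_w` interchanges them.

The definitions (`PCode`, `codeRels`, `CGrp`) are in `Pool.Agent.Q221.Rabin.Code`, and `Integrable`
is in `Pool.Agent.Q221.Rabin.Integral`.
-/

namespace Pool.Agent.Results.MP_b13100_lc.IntegrabilityUndecidable

open Pool.Agent.Q221.Rabin

universe v

/-- Every finite presentation has a code, and there is no algorithm which decides, given (the code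
of) a finite presentation, whether the group has an integral. -/
theorem result :
    (∀ (n : ℕ) (R : Finset (FreeGroup (Fin n))), ∃ P : PCode, P.1 = n ∧
      Nonempty (CGrp P ≃* PresentedGroup (R : Set (FreeGroup (Fin n))))) ∧
    ¬ ComputablePred fun P : PCode => Integrable.{v} (CGrp P) := by
  refine ⟨fun n R => ?_, integrable_undecidable⟩
  classical
  obtain ⟨φ⟩ := code_equiv (Equiv.refl (Fin n)) (R.toList.map fun g => g.toWord)
  have h : {g : FreeGroup (Fin n) | ∃ w ∈ R.toList.map (fun g => g.toWord),
      g = FreeGroup.mk w} = (R : Set (FreeGroup (Fin n))) := by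
    ext g
    simp only [Set.mem_ofPred_eq, List.mem_map, Finset.mem_toList, Finset.mem_coe]
    constructor
    · rintro ⟨_, ⟨g', hg', rfl⟩, rfl⟩
      rwa [FreeGroup.mk_toWord]
    · intro hg
      exact ⟨_, ⟨g, hg, rfl⟩, FreeGroup.mk_toWord.symm⟩
  rw [h] at φ
  exact ⟨_, rfl, ⟨φ⟩⟩

end Pool.Agent.Results.MP_b13100_lc.IntegrabilityUndecidable
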